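import Pool.Agent.H615R3.RecDefs

/-!
Combinatorial data for weighted shifts that are (`𝒰`-)frequently recurrent while the inverse is not
(MP_3e9a14_an): the sets `E a` and the height function `u`.
-/

set_option autoImplicit false

namespace Pool.Agent.H50R3.Inv

open Set Filter

/-- The level of the scale `r`. -/
def lev (r : ℕ) : ℕ := padicValNat 2 r + 1

lemma lev_pos (r : ℕ) : 1 ≤ lev r := Nat.succ_le_succ (Nat.zero_le _)

lemma pow_dvd_of_lev {j r : ℕ} (hr : 1 ≤ r) (h : j + 1 ≤ lev r) : 2 ^ j ∣ r := by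
  unfold lev at h
  exact (padicValNat_dvd_iff_le (p := 2) (by omega)).2 (by omega)

lemma lev_le {r : ℕ} (hr : 1 ≤ r) : lev r ≤ r := by
  obtain ⟨j, hj⟩ := Nat.exists_eq_succ_of_ne_zero (show lev r ≠ 0 by have := lev_pos r; omega)
  have h := Nat.le_of_dvd hr (pow_dvd_of_lev (j := j) hr (by omega))
  have := Nat.lt_two_pow_self (n := j)
  omega

lemma lev_eq (a s : ℕ) : lev (2 ^ a * (2 * s + 1)) = a + 1 := by
  unfold lev
  rw [padicValNat.mul (by positivity) (by omega), padicValNat.prime_pow,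
    padicValNat.eq_zero_of_not_dvd (by omega)]

lemma four_le (a : ℕ) : 4 * a + 1 ≤ 64 ^ a := by
  induction a with
  | zero => simp
  | succ n ih => rw [pow_succ]; omega

lemma sixteen_le {r : ℕ} (hr : 1 ≤ r) : 16 * r ≤ 16 ^ r := by
  induction r, hr using Nat.le_induction with
  | base => norm_num
  | succ n hn ih => rw [pow_succ]; omega

/-- Parameters. -/
structure Par where
  P : ℕ → ℕ
  L : ℕ → ℕ
  hP : ∀ r, 16 ^ r ≤ P r
  hL : ∀ a, 2 ≤ L a
  hS : ∀ r, 1 ≤ r → 4 * (L (lev r) * P r + 2 * P r) ≤ P (r + 1)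

namespace Par

variable (p : Par)

lemma P_mono {r s : ℕ} (hr : 1 ≤ r) (h : r ≤ s) : p.P r ≤ p.P s := by
  induction s, h using Nat.le_induction with
  | base => exact le_rfl
  | succ n hn ih =>
    have := p.hS n (by omega)
    omega

lemma chain {r s : ℕ} (hr : 1 ≤ r) (h : r < s) :
    4 * (p.L (lev r) * p.P r + 2 * p.P r) ≤ p.P s :=
  (p.hS r hr).trans (p.P_mono (by omega) h)

lemma P_ge {r : ℕ} (hr : 1 ≤ r) : 16 * r ≤ p.P r := (sixteen_le hr).trans (p.hP r)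

/-- `n` belongs to the scale `r`. -/
def sc (a r n : ℕ) : Prop :=
  1 ≤ r ∧ lev r = a ∧ p.L a * p.P r ≤ n ∧ n < p.L a * p.P r + p.P r ∧ 64 ^ a ∣ n

/-- The sets of return times. -/
def E (a : ℕ) : Set ℕ := {n | ∃ r, p.sc a r n}

lemma LP_ge (a r : ℕ) : 2 * p.P r ≤ p.L a * p.P r := Nat.mul_le_mul_right _ (p.hL a)

lemma sc_ge {a r n : ℕ} (h : p.sc a r n) : 64 ^ a ≤ n := by
  obtain ⟨h1, h2, h3, h4, h5⟩ := h
  have := p.LP_ge a r
  have := p.P_ge h1
  exact Nat.le_of_dvd (by omega) h5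

lemma sc_le {a b r s n m : ℕ} (h : p.sc a r n) (h' : p.sc b s m) (hmn : m < n) : s ≤ r := by
  by_contra hc
  obtain ⟨h1, h2, h3, h4, h5⟩ := h
  obtain ⟨k1, k2, k3, k4, k5⟩ := h'
  have c := p.chain h1 (show r < s by omega)
  rw [h2] at c
  have := p.LP_ge b s
  omega

/-- Two elements of the same scale, or of different scales. -/
lemma dich {a b r s n m : ℕ} (h : p.sc a r n) (h' : p.sc b s m) (hmn : m < n) :
    (b = a ∧ ∃ i, 1 ≤ i ∧ n = m + i * 64 ^ a) ∨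
      (4 * (m + p.P s) ≤ p.P r ∧ 16 * s ≤ p.P s ∧ b ≤ s ∧ s < r) := by
  rcases Nat.lt_or_ge s r with hs | hs
  · right
    obtain ⟨h1, h2, h3, h4, h5⟩ := h
    obtain ⟨k1, k2, k3, k4, k5⟩ := h'
    have c := p.chain k1 hs
    rw [k2] at c
    have := p.P_ge k1
    have := lev_le k1
    refine ⟨by omega, by omega, by omega, hs⟩
  · left
    have hle := p.sc_le h h' hmn
    have hrs : r = s := by omega
    subst hrs
    obtain ⟨h1, h2, h3, h4, h5⟩ := h
    obtain ⟨k1, k2, k3, k4, k5⟩ := h'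
    have hab : b = a := by omega
    subst hab
    refine ⟨rfl, ?_⟩
    obtain ⟨x, hx⟩ := h5
    obtain ⟨y, hy⟩ := k5
    have hxy : y < x := by
      by_contra hc
      have := Nat.mul_le_mul_left (64 ^ b) (show x ≤ y by omega)
      omega
    refine ⟨x - y, by omega, ?_⟩
    rw [hx, hy, mul_comm (x - y), ← Nat.mul_add]
    congr 1
    omega

theorem sep {a b n m : ℕ} (hn : n ∈ p.E a) (hm : m ∈ p.E b) (hmn : m < n) : m + a + b < n := by
  obtain ⟨r, h⟩ := hn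
  obtain ⟨s, h'⟩ := hm
  rcases p.dich h h' hmn with ⟨rfl, i, hi, hi2⟩ | ⟨h1, h2, h3, h4⟩
  · have := Nat.mul_le_mul_right (64 ^ b) hi
    have := four_le b
    omega
  · have c := p.LP_ge a r
    have e := lev_le h.1
    have f := h.2.1
    have g := h.2.2.1
    have := p.P_ge h.1
    omega

theorem start {a n : ℕ} (hn : n ∈ p.E a) : 2 * a < n := by
  obtain ⟨r, h⟩ := hn
  have := p.sc_ge h
  have := four_le a
  omega

theorem E_pos {a n : ℕ} (hn : n ∈ p.E a) : 1 ≤ a := by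
  obtain ⟨r, h⟩ := hn
  have := lev_pos r
  have := h.2.1
  omega

/-- The set where the height is at least `a`. -/
def D (a k : ℕ) : Prop :=
  (∃ i, 1 ≤ i ∧ i * 64 ^ a ≤ k + a ∧ k ≤ i * 64 ^ a + a) ∨
    ∃ r, 1 ≤ r ∧ lev r = a ∧ 2 * (p.L a * p.P r) ≤ 2 * k + p.P r ∧
      2 * k ≤ 2 * (p.L a * p.P r) + 3 * p.P r

lemma D_ge {a d : ℕ} (h : p.D a d) : 2 * a ≤ d := by
  rcases h with ⟨i, h1, h2, h3⟩ | ⟨r, h1, h2, h3, h4⟩
  · have := Nat.mul_le_mul_right (64 ^ a) h1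
    have := four_le a
    omega
  · have := p.LP_ge a r
    have := p.P_ge h1
    have := lev_le h1
    omega

/-- The height function. -/
noncomputable def u (k : ℕ) : ℕ := by
  classical exact Nat.findGreatest (fun t => ∃ a d, p.D a d ∧ t + (k - d) + (d - k) ≤ a) k

lemma le_u {k t a d : ℕ} (h : p.D a d) (h2 : t + (k - d) + (d - k) ≤ a) : t ≤ p.u k := by
  classical
  unfold u
  apply Nat.le_findGreatest
  · have := p.D_ge h
    omega
  · exact ⟨a, d, h, h2⟩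

lemma u_spec {k : ℕ} (h : p.u k ≠ 0) : ∃ a d, p.D a d ∧ p.u k + (k - d) + (d - k) ≤ a := by
  classical
  exact Nat.findGreatest_of_ne_zero (P := fun t => ∃ a d, p.D a d ∧ t + (k - d) + (d - k) ≤ a)
    (n := k) (m := p.u k) rfl h

theorem u_zero : p.u 0 = 0 := by
  classical
  unfold u
  exact Nat.findGreatest_zero

theorem lip (k : ℕ) : p.u (k + 1) ≤ p.u k + 1 ∧ p.u k ≤ p.u (k + 1) + 1 := by
  constructor
  · by_cases h : p.u (k + 1) = 0
    · omega
    · obtain ⟨a, d, h1, h2⟩ := p.u_spec h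
      have := p.le_u (k := k) (t := p.u (k + 1) - 1) h1 (by omega)
      omega
  · by_cases h : p.u k = 0
    · omega
    · obtain ⟨a, d, h1, h2⟩ := p.u_spec h
      have := p.le_u (k := k + 1) (t := p.u k - 1) h1 (by omega)
      omega

theorem deep0 {a n k : ℕ} (hn : n ∈ p.E a) (h1 : n ≤ k + a) (h2 : k ≤ n + a) : a ≤ p.u k := by
  obtain ⟨r, h⟩ := hn
  refine p.le_u (a := a) (d := k) (Or.inl ?_) (by omega)
  obtain ⟨i, hi⟩ := h.2.2.2.2
  have h64 := p.sc_ge h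
  refine ⟨i, ?_, ?_, ?_⟩
  · rcases Nat.eq_zero_or_pos i with h0 | h0
    · subst h0
      have := four_le a
      omega
    · exact h0
  · rw [mul_comm]; omega
  · rw [mul_comm]; omega

theorem deep {a b n m k : ℕ} (hn : n ∈ p.E a) (hm : m ∈ p.E b) (hmn : m < n)
    (h1 : n ≤ m + k + b) (h2 : m + k ≤ n + b) : a ≤ p.u k := by
  obtain ⟨r, h⟩ := hn
  obtain ⟨s, h'⟩ := hm
  refine p.le_u (a := a) (d := k) ?_ (by omega)
  rcases p.dich h h' hmn with ⟨rfl, i, hi, hi2⟩ | ⟨k1, k2, k3, k4⟩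
  · left
    exact ⟨i, hi, by omega, by omega⟩
  · right
    obtain ⟨g1, g2, g3, g4, g5⟩ := h
    exact ⟨r, g1, g2, by omega, by omega⟩

/-- The second part of the set where the height is at least `j`. -/
def G (j : ℕ) : Set ℕ := {k | ∃ r, 1 ≤ r ∧ j ≤ lev r ∧ p.L (lev r) * p.P r ≤ k + p.P r ∧
  k ≤ p.L (lev r) * p.P r + 2 * p.P r}

theorem u_ge {j k : ℕ} (hj : 1 ≤ j) (h : j ≤ p.u k) :
    (∃ a, j ≤ a ∧ ∃ i, 1 ≤ i ∧ i * 64 ^ a ≤ k + 2 * a ∧ k ≤ i * 64 ^ a + 2 * a) ∨ k ∈ p.G j := by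
  obtain ⟨a, d, h1, h2⟩ := p.u_spec (k := k) (by omega)
  rcases h1 with ⟨i, k1, k2, k3⟩ | ⟨r, k1, k2, k3, k4⟩
  · left
    exact ⟨a, by omega, i, k1, by omega, by omega⟩
  · right
    have := p.P_ge k1
    have := lev_le k1
    refine ⟨r, k1, by omega, ?_, ?_⟩
    · rw [k2]; omega
    · rw [k2]; omega

end Par

end Pool.Agent.H50R3.Inv
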