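import Pool.Agent.H50R3.Inv.Comb

/-!
Densities of the combinatorial data: common part.
-/

set_option autoImplicit false

namespace Pool.Agent.H50R3.Inv

open Set Filter Topology Pool.Agent.H615R3

/-- The thickened multiples of `64 ^ a`. -/
def F1 (a : ℕ) : Set ℕ := {k | ∃ i, 1 ≤ i ∧ i * 64 ^ a ≤ k + 2 * a ∧ k ≤ i * 64 ^ a + 2 * a}

/-- Cover of `F1 a ∩ [1, N]`. -/
noncomputable def T1 (a N : ℕ) : Finset ℕ :=
  ((Finset.Icc 1 ((N + 2 * a) / 64 ^ a)) ×ˢ Finset.range (4 * a + 1)).image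
    (fun q => q.1 * 64 ^ a + q.2 - 2 * a)

lemma F1_sub {a N k : ℕ} (hk : k ∈ F1 a) (hN : k ≤ N) : k ∈ T1 a N := by
  obtain ⟨i, h1, h2, h3⟩ := hk
  unfold T1
  rw [Finset.mem_image]
  refine ⟨(i, k + 2 * a - i * 64 ^ a), ?_, ?_⟩
  · rw [Finset.mem_product, Finset.mem_Icc, Finset.mem_range]
    refine ⟨⟨h1, ?_⟩, ?_⟩
    · exact (Nat.le_div_iff_mul_le (by positivity)).2 (show i * 64 ^ a ≤ N + 2 * a by omega)
    · simp only; omega
  · simp only; omega

lemma poly_le (a : ℕ) : (1 + 2 * a) * (4 * a + 1) ≤ 8 * 4 ^ a := by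
  have h := Nat.lt_two_pow_self (n := a)
  have h1 : 1 + 2 * a ≤ 2 * 2 ^ a := by omega
  have h2 : 4 * a + 1 ≤ 4 * 2 ^ a := by omega
  calc (1 + 2 * a) * (4 * a + 1) ≤ (2 * 2 ^ a) * (4 * 2 ^ a) := Nat.mul_le_mul h1 h2
    _ = 8 * 4 ^ a := by
        have : (4:ℕ) ^ a = 2 ^ a * 2 ^ a := by rw [← mul_pow]; norm_num
        rw [this]; ring

lemma T1_card (a N : ℕ) (hN : 1 ≤ N) : ((T1 a N).card : ℝ) ≤ N * (8 / 16 ^ a) := by
  have h1 : (T1 a N).card ≤ ((N + 2 * a) / 64 ^ a) * (4 * a + 1) := by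
    refine Finset.card_image_le.trans ?_
    rw [Finset.card_product, Nat.card_Icc, Finset.card_range]
    simp
  have h2 : (((N + 2 * a) / 64 ^ a : ℕ) : ℝ) ≤ ((N + 2 * a : ℕ) : ℝ) / ((64 ^ a : ℕ) : ℝ) :=
    Nat.cast_div_le
  have h3 : ((N + 2 * a : ℕ) : ℝ) ≤ N * (1 + 2 * a) := by
    push_cast
    have : (1:ℝ) ≤ N := by exact_mod_cast hN
    have ha : (0:ℝ) ≤ a := Nat.cast_nonneg _
    nlinarith
  have h4 : ((1 + 2 * a) * (4 * a + 1) : ℝ) ≤ 8 * 4 ^ a := by exact_mod_cast poly_le a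
  have h5 : ((64 ^ a : ℕ) : ℝ) = 16 ^ a * 4 ^ a := by
    push_cast
    rw [← mul_pow]; norm_num
  have h6 : (0:ℝ) < 16 ^ a := by positivity
  have h7 : (0:ℝ) < 4 ^ a := by positivity
  calc ((T1 a N).card : ℝ) ≤ ((((N + 2 * a) / 64 ^ a) * (4 * a + 1) : ℕ) : ℝ) := by
        exact_mod_cast h1
    _ = (((N + 2 * a) / 64 ^ a : ℕ) : ℝ) * (4 * a + 1) := by push_cast; ring
    _ ≤ (N * (1 + 2 * a) / (16 ^ a * 4 ^ a)) * (4 * a + 1) := by
        apply mul_le_mul_of_nonneg_right _ (by positivity)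
        refine h2.trans ?_
        rw [h5]
        exact div_le_div_of_nonneg_right h3 (by positivity)
    _ = N * (((1 + 2 * a) * (4 * a + 1)) / (16 ^ a * 4 ^ a)) := by ring
    _ ≤ N * ((8 * 4 ^ a) / (16 ^ a * 4 ^ a)) := by
        apply mul_le_mul_of_nonneg_left _ (Nat.cast_nonneg _)
        exact div_le_div_of_nonneg_right h4 (by positivity)
    _ = N * (8 / 16 ^ a) := by
        congr 1
        field_simp

lemma geo (j n : ℕ) : ∑ a ∈ Finset.Ico j n, (8 / 16 ^ a : ℝ) ≤ 9 / 16 ^ j := by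
  rcases Nat.lt_or_ge n j with h | h
  · rw [Finset.Ico_eq_empty_of_le h.le, Finset.sum_empty]
    positivity
  · have key : ∑ a ∈ Finset.Ico j n, (8 / 16 ^ a : ℝ) ≤ 9 / 16 ^ j - 9 / 16 ^ n := by
      induction n, h using Nat.le_induction with
      | base => simp
      | succ m hm ih =>
        rw [Finset.sum_Ico_succ_top hm]
        have e : (9:ℝ) / 16 ^ (m + 1) = (9 / 16) * (1 / 16 ^ m) := by
          rw [pow_succ]; ring
        have e2 : (9:ℝ) / 16 ^ m = 9 * (1 / 16 ^ m) := by ring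
        have e3 : (8:ℝ) / 16 ^ m = 8 * (1 / 16 ^ m) := by ring
        have e4 : (0:ℝ) < 1 / 16 ^ m := by positivity
        rw [e, e3]
        rw [e2] at ih
        linarith
    have : (0:ℝ) < 9 / 16 ^ n := by positivity
    linarith

/-- Counting function. -/
noncomputable def cnt (A : Set ℕ) (N : ℕ) : ℝ := ((A ∩ Icc 1 N).ncard : ℝ)

lemma cnt_nonneg (A : Set ℕ) (N : ℕ) : 0 ≤ cnt A N := Nat.cast_nonneg _

lemma cnt_le_of_sub {A : Set ℕ} {N M : ℕ} (h : A ∩ Icc 1 N ⊆ Icc 1 M) : cnt A N ≤ M := by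
  unfold cnt
  have h1 : (A ∩ Icc 1 N).ncard ≤ (Icc 1 M).ncard := ncard_le_ncard h (finite_Icc _ _)
  have h2 : (Icc 1 M : Set ℕ).ncard = M := by
    rw [← Finset.coe_Icc, ncard_coe_finset, Nat.card_Icc]; omega
  rw [h2] at h1
  exact_mod_cast h1

lemma cnt_ratio_le_one (A : Set ℕ) (N : ℕ) : cnt A N / N ≤ 1 := by
  rcases Nat.eq_zero_or_pos N with h | h
  · simp [h]
  · rw [div_le_one (by exact_mod_cast h)]
    exact cnt_le_of_sub inter_subset_right

lemma cnt_ratio_nonneg (A : Set ℕ) (N : ℕ) : 0 ≤ cnt A N / N :=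
  div_nonneg (cnt_nonneg _ _) (Nat.cast_nonneg _)

lemma bdd_ge (A : Set ℕ) : IsBoundedUnder (· ≥ ·) atTop (fun N : ℕ => cnt A N / N) :=
  isBoundedUnder_of ⟨0, cnt_ratio_nonneg A⟩

lemma bdd_le (A : Set ℕ) : IsBoundedUnder (· ≤ ·) atTop (fun N : ℕ => cnt A N / N) :=
  isBoundedUnder_of ⟨1, cnt_ratio_le_one A⟩

lemma lowerDensity_le {A : Set ℕ} {c : ℝ} (h : ∀ N₀, ∃ N, N₀ ≤ N ∧ 1 ≤ N ∧ cnt A N ≤ c * N) :
    lowerDensity A ≤ c := by
  unfold lowerDensity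
  refine liminf_le_of_frequently_le ?_ (bdd_ge A)
  rw [frequently_atTop]
  intro N₀
  obtain ⟨N, h1, h2, h3⟩ := h N₀
  refine ⟨N, h1, ?_⟩
  rw [div_le_iff₀ (by exact_mod_cast h2)]
  exact h3

lemma upperDensity_le {A : Set ℕ} {c : ℝ} (h : ∀ N, 1 ≤ N → cnt A N ≤ c * N) :
    upperDensity A ≤ c := by
  unfold upperDensity
  refine limsup_le_of_le (bdd_ge A).isCoboundedUnder_le ?_
  filter_upwards [eventually_ge_atTop 1] with N h2
  rw [div_le_iff₀ (by exact_mod_cast h2)]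
  exact h N h2

lemma le_lowerDensity {A : Set ℕ} {c : ℝ} (h : ∃ N₀, ∀ N, N₀ ≤ N → c * N ≤ cnt A N) :
    c ≤ lowerDensity A := by
  unfold lowerDensity
  refine le_liminf_of_le (bdd_le A).isCoboundedUnder_ge ?_
  obtain ⟨N₀, h⟩ := h
  filter_upwards [eventually_ge_atTop 1, eventually_ge_atTop N₀] with N h2 h3
  rw [le_div_iff₀ (by exact_mod_cast h2)]
  exact h N h3

lemma le_upperDensity {A : Set ℕ} {c : ℝ} (h : ∀ N₀, ∃ N, N₀ ≤ N ∧ 1 ≤ N ∧ c * N ≤ cnt A N) :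
    c ≤ upperDensity A := by
  unfold upperDensity
  refine le_limsup_of_frequently_le ?_ (bdd_le A)
  rw [frequently_atTop]
  intro N₀
  obtain ⟨N, h1, h2, h3⟩ := h N₀
  refine ⟨N, h1, ?_⟩
  rw [le_div_iff₀ (by exact_mod_cast h2)]
  exact h3

namespace Par

variable (p : Par)

/-- Count of the points of large height. -/
theorem cnt_u_le {j N : ℕ} (hj : 1 ≤ j) (hN : 1 ≤ N) :
    cnt {k | j ≤ p.u k} N ≤ N * (9 / 16 ^ j) + cnt (p.G j) N := by
  classical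
  have hsub : {k | j ≤ p.u k} ∩ Icc 1 N ⊆
      (↑((Finset.Ico j (N + 1)).biUnion (fun a => T1 a N)) : Set ℕ) ∪ (p.G j ∩ Icc 1 N) := by
    rintro k ⟨hk, hk2⟩
    rcases p.u_ge hj hk with ⟨a, ha, i, h1, h2, h3⟩ | h
    · left
      rw [Finset.mem_coe, Finset.mem_biUnion]
      refine ⟨a, ?_, F1_sub ⟨i, h1, h2, h3⟩ hk2.2⟩
      rw [Finset.mem_Ico]
      have e1 := Nat.mul_le_mul_right (64 ^ a) h1
      have e2 := four_le a
      have e3 := hk2.2
      omega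
    · right
      exact ⟨h, hk2⟩
  have h1 : ({k | j ≤ p.u k} ∩ Icc 1 N).ncard ≤
      ((Finset.Ico j (N + 1)).biUnion (fun a => T1 a N)).card + (p.G j ∩ Icc 1 N).ncard := by
    refine (ncard_le_ncard hsub ?_).trans ?_
    · exact (Finset.finite_toSet _).union ((finite_Icc 1 N).subset inter_subset_right)
    · refine (ncard_union_le _ _).trans ?_
      rw [ncard_coe_finset]
  have h2 : (((Finset.Ico j (N + 1)).biUnion (fun a => T1 a N)).card : ℝ) ≤ N * (9 / 16 ^ j) := by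
    calc (((Finset.Ico j (N + 1)).biUnion (fun a => T1 a N)).card : ℝ)
        ≤ ((∑ a ∈ Finset.Ico j (N + 1), (T1 a N).card : ℕ) : ℝ) := by
          exact_mod_cast Finset.card_biUnion_le
      _ = ∑ a ∈ Finset.Ico j (N + 1), ((T1 a N).card : ℝ) := by push_cast; rfl
      _ ≤ ∑ a ∈ Finset.Ico j (N + 1), N * (8 / 16 ^ a : ℝ) :=
          Finset.sum_le_sum fun a _ => T1_card a N hN
      _ = N * ∑ a ∈ Finset.Ico j (N + 1), (8 / 16 ^ a : ℝ) := by rw [Finset.mul_sum]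
      _ ≤ N * (9 / 16 ^ j) := mul_le_mul_of_nonneg_left (geo _ _) (Nat.cast_nonneg _)
  unfold cnt
  have h3 : (({k | j ≤ p.u k} ∩ Icc 1 N).ncard : ℝ) ≤
      (((Finset.Ico j (N + 1)).biUnion (fun a => T1 a N)).card : ℝ) +
        ((p.G j ∩ Icc 1 N).ncard : ℝ) := by exact_mod_cast h1
  linarith

/-- Number of elements of a scale. -/
theorem cnt_E_ge {a r c N : ℕ} (hr : 1 ≤ r) (hlev : lev r = a) (hc : p.P r = 64 ^ a * c)
    (hN : p.L a * p.P r + p.P r ≤ N) : (c : ℝ) ≤ cnt (p.E a) N := by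
  classical
  have hinj : Function.Injective (fun i : ℕ => 64 ^ a * i) := fun x y h =>
    Nat.eq_of_mul_eq_mul_left (by positivity) h
  have hP := p.P_ge hr
  have hL := p.hL a
  have hsub : (↑((Finset.Ico (p.L a * c) (p.L a * c + c)).image (fun i => 64 ^ a * i)) : Set ℕ) ⊆
      p.E a ∩ Icc 1 N := by
    intro n hn
    rw [Finset.mem_coe, Finset.mem_image] at hn
    obtain ⟨i, hi, rfl⟩ := hn
    rw [Finset.mem_Ico] at hi
    have e1 : 64 ^ a * (p.L a * c) ≤ 64 ^ a * i := Nat.mul_le_mul_left _ hi.1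
    have e2 : 64 ^ a * i < 64 ^ a * (p.L a * c + c) :=
      Nat.mul_lt_mul_of_pos_left hi.2 (by positivity)
    have e3 : 64 ^ a * (p.L a * c) = p.L a * p.P r := by rw [hc]; ring
    have e4 : 64 ^ a * (p.L a * c + c) = p.L a * p.P r + p.P r := by rw [hc]; ring
    have e5 := p.LP_ge a r
    refine ⟨⟨r, hr, hlev, by omega, by omega, dvd_mul_right _ _⟩, ?_, ?_⟩
    · omega
    · omega
  have h1 : ((Finset.Ico (p.L a * c) (p.L a * c + c)).image (fun i => 64 ^ a * i)).card = c := by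
    rw [Finset.card_image_of_injective _ hinj, Nat.card_Ico]; omega
  have h2 := ncard_le_ncard hsub ((finite_Icc 1 N).subset inter_subset_right)
  rw [ncard_coe_finset, h1] at h2
  unfold cnt
  exact_mod_cast h2

end Par

end Pool.Agent.H50R3.Inv
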