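import Pool.Agent.H50R3.Inv.Dens
import Pool.Agent.H431R3.Inv.Stmts

/-!
The data for the frequent case.
-/

set_option autoImplicit false

namespace Pool.Agent.H50R3.Inv

open Set Filter Topology Pool.Agent.H615R3

theorem Par.data (p : Par) : Pool.Agent.H431R3.Inv.Data p.E p.u where
  zero := p.u_zero
  lip1 k := (p.lip k).1
  lip2 k := (p.lip k).2
  start a n hn := p.start hn
  sep a b n hn m hm h := by
    have := p.sep hm hn h
    omega
  deep0 a n hn k h1 h2 := p.deep0 hn h1 h2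
  deep a b n hn m hm h k h1 h2 := p.deep hn hm h (by omega) (by omega)

/-- Parameters of the frequent case. -/
def parF : Par where
  P r := 16 ^ r
  L _ := 2
  hP _ := le_rfl
  hL _ := le_rfl
  hS r _ := by rw [pow_succ]; omega

lemma G_sub {i s : ℕ} : parF.G (i + 1) ∩ Icc 1 (16 ^ (2 ^ i * s) - 1) ⊆
    Icc 1 (4 * 16 ^ (2 ^ i * s - 2 ^ i)) := by
  rintro k ⟨⟨r, h1, h2, h3, h4⟩, h5, h6⟩
  obtain ⟨t, ht⟩ := pow_dvd_of_lev h1 h2
  have e3 : 2 * 16 ^ r ≤ k + 16 ^ r := h3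
  have e4 : k ≤ 2 * 16 ^ r + 2 * 16 ^ r := h4
  have hlt : 16 ^ r < 16 ^ (2 ^ i * s) := by
    have : 0 < 16 ^ (2 ^ i * s) := by positivity
    omega
  have hr : r < 2 ^ i * s := (Nat.pow_lt_pow_iff_right (by norm_num)).1 hlt
  have hts : t < s := by
    rw [ht] at hr
    exact Nat.lt_of_mul_lt_mul_left hr
  have h7 : r ≤ 2 ^ i * s - 2 ^ i := by
    have := Nat.mul_le_mul_left (2 ^ i) (show t + 1 ≤ s by omega)
    rw [Nat.mul_add, mul_one] at this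
    omega
  have h8 := Nat.pow_le_pow_right (show 0 < 16 by norm_num) h7
  exact ⟨h5, by omega⟩

lemma cnt_G {i s N : ℕ} (hs : 1 ≤ s) (hN : N = 16 ^ (2 ^ i * s) - 1) :
    cnt (parF.G (i + 1)) N ≤ N * (8 / 16 ^ i) := by
  have h1 : cnt (parF.G (i + 1)) N ≤ ((4 * 16 ^ (2 ^ i * s - 2 ^ i) : ℕ) : ℝ) := by
    rw [hN]
    exact cnt_le_of_sub G_sub
  have hle : 2 ^ i ≤ 2 ^ i * s := Nat.le_mul_of_pos_right _ hs
  have h2 : (16:ℝ) ^ (2 ^ i * s - 2 ^ i) * 16 ^ (2 ^ i) = 16 ^ (2 ^ i * s) := by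
    rw [← pow_add, Nat.sub_add_cancel hle]
  have h3 : (16:ℝ) ^ i ≤ 16 ^ (2 ^ i) := pow_le_pow_right₀ (by norm_num) Nat.lt_two_pow_self.le
  have h4 : (16:ℝ) ^ (2 ^ i * s) ≤ 2 * N := by
    have : 16 ^ (2 ^ i * s) ≤ 2 * N := by
      have h16 : 16 ^ 1 ≤ 16 ^ (2 ^ i * s) := by
        apply Nat.pow_le_pow_right (by norm_num)
        have : 0 < 2 ^ i := by positivity
        omega
      omega
    exact_mod_cast this
  have h5 : (0:ℝ) < 16 ^ i := by positivity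
  have h6 : (0:ℝ) < 16 ^ (2 ^ i * s - 2 ^ i) := by positivity
  have h7 : (16:ℝ) ^ (2 ^ i * s - 2 ^ i) * 16 ^ i ≤ 2 * N := by
    calc (16:ℝ) ^ (2 ^ i * s - 2 ^ i) * 16 ^ i ≤ 16 ^ (2 ^ i * s - 2 ^ i) * 16 ^ (2 ^ i) :=
          mul_le_mul_of_nonneg_left h3 h6.le
      _ ≤ 2 * N := by rw [h2]; exact h4
  refine h1.trans ?_
  push_cast
  rw [mul_div_assoc', le_div_iff₀ h5]
  linarith

theorem parF_high (i : ℕ) : lowerDensity {k | i + 1 ≤ parF.u k} ≤ 17 / 16 ^ i := by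
  apply lowerDensity_le
  intro N₀
  have hs : N₀ + 1 ≤ 2 ^ i * (N₀ + 1) := Nat.le_mul_of_pos_left _ (by positivity)
  have hlt : 2 ^ i * (N₀ + 1) < 16 ^ (2 ^ i * (N₀ + 1)) := Nat.lt_pow_self (by norm_num)
  refine ⟨16 ^ (2 ^ i * (N₀ + 1)) - 1, by omega, by omega, ?_⟩
  generalize hN : 16 ^ (2 ^ i * (N₀ + 1)) - 1 = N
  have hN1 : 1 ≤ N := by omega
  have h1 := parF.cnt_u_le (j := i + 1) (N := N) (by omega) hN1
  have h2 := cnt_G (i := i) (s := N₀ + 1) (N := N) (by omega) hN.symm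
  have h3 : (9:ℝ) / 16 ^ (i + 1) ≤ 9 / 16 ^ i := by
    apply div_le_div_of_nonneg_left (by norm_num) (by positivity)
    exact pow_le_pow_right₀ (by norm_num) (by omega)
  have h4 : (N:ℝ) * (9 / 16 ^ (i + 1)) ≤ N * (9 / 16 ^ i) :=
    mul_le_mul_of_nonneg_left h3 (Nat.cast_nonneg _)
  calc cnt {k | i + 1 ≤ parF.u k} N ≤ N * (9 / 16 ^ i) + N * (8 / 16 ^ i) := by linarith
    _ = 17 / 16 ^ i * N := by ring

theorem parF_low (a : ℕ) (ha : 1 ≤ a) : 0 < lowerDensity (parF.E a) := by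
  obtain ⟨b, rfl⟩ := Nat.exists_eq_succ_of_ne_zero (show a ≠ 0 by omega)
  have hpos : (0:ℝ) < 1 / (64 ^ (b + 1) * 16 ^ (2 * 2 ^ b + 1)) := by positivity
  refine lt_of_lt_of_le hpos (le_lowerDensity ?_)
  generalize hw : 2 ^ b = w
  have hw0 : 0 < w := by rw [← hw]; positivity
  refine ⟨16 ^ (3 * w + 2 * (b + 1) + 1), fun N hN => ?_⟩
  have hN0 : N ≠ 0 := by
    have : 0 < 16 ^ (3 * w + 2 * (b + 1) + 1) := by positivity
    omega
  have g1 := Nat.pow_log_le_self 16 hN0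
  have g2 := Nat.lt_pow_succ_log_self (b := 16) (by norm_num) N
  have g3 := Nat.le_log_of_pow_le (b := 16) (by norm_num) hN
  generalize Nat.log 16 N = l at g1 g2 g3
  obtain ⟨t, rfl⟩ := Nat.exists_eq_succ_of_ne_zero (show l ≠ 0 by omega)
  have e1 := Nat.div_add_mod (t - w) (2 * w)
  have e2 := Nat.mod_lt (t - w) (show 2 * w > 0 by omega)
  generalize (t - w) / (2 * w) = s at e1
  generalize (t - w) % (2 * w) = m at e1 e2
  have e3 : w * (2 * s + 1) = 2 * w * s + w := by ring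
  have hlev : lev (w * (2 * s + 1)) = b + 1 := by rw [← hw]; exact lev_eq b s
  generalize hr : w * (2 * s + 1) = r at e3 hlev
  have r1 : r ≤ t := by omega
  have r2 : t < r + 2 * w := by omega
  have r3 : 2 * (b + 1) ≤ r := by omega
  have hdvd : 64 ^ (b + 1) ∣ 16 ^ r := by
    have h1 : (64:ℕ) ^ (b + 1) = 2 ^ (6 * (b + 1)) := by rw [pow_mul]; norm_num
    have h2 : (16:ℕ) ^ r = 2 ^ (4 * r) := by rw [pow_mul]; norm_num
    rw [h1, h2]
    exact pow_dvd_pow 2 (by omega)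
  obtain ⟨c, hc⟩ := hdvd
  have hle : 16 ^ (r + 1) ≤ 16 ^ (t + 1) := Nat.pow_le_pow_right (by norm_num) (by omega)
  have h1 := parF.cnt_E_ge (a := b + 1) (r := r) (c := c) (N := N) (by omega) hlev hc (by
    show 2 * 16 ^ r + 16 ^ r ≤ N
    rw [pow_succ] at hle
    have : 16 ^ (t + 1) ≤ N := g1
    omega)
  refine le_trans ?_ h1
  have hN2 : (N:ℝ) ≤ 16 ^ r * 16 ^ (2 * w + 1) := by
    have : N ≤ 16 ^ r * 16 ^ (2 * w + 1) := by
      rw [← pow_add]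
      exact g2.le.trans (Nat.pow_le_pow_right (by norm_num) (by omega))
    exact_mod_cast this
  have hc2 : (16:ℝ) ^ r = 64 ^ (b + 1) * c := by exact_mod_cast hc
  rw [hc2] at hN2
  have hp : (0:ℝ) < 64 ^ (b + 1) * 16 ^ (2 * w + 1) := by positivity
  show 1 / ((64:ℝ) ^ (b + 1) * 16 ^ (2 * w + 1)) * N ≤ c
  rw [one_div, inv_mul_eq_div, div_le_iff₀ hp]
  linarith

theorem taskFreq : Pool.Agent.H431R3.Inv.TaskFreq := by
  refine ⟨parF.E, parF.u, parF.data, parF_low, fun δ hδ => ?_⟩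
  obtain ⟨i, hi⟩ := exists_pow_lt_of_lt_one (show 0 < δ / 17 by positivity)
    (show (1 / 16 : ℝ) < 1 by norm_num)
  refine ⟨i + 1, lt_of_le_of_lt (parF_high i) ?_⟩
  have : (17:ℝ) / 16 ^ i = 17 * (1 / 16) ^ i := by
    rw [one_div_pow]; ring
  rw [this]
  linarith

end Pool.Agent.H50R3.Inv
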